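import Mathlib

/-!
# The local structure of the Gauss-Manin connection at a node
-/

set_option autoImplicit false

open Polynomial

namespace Pool.Agent.Helper31.BW

variable {A : Type} [CommRing A]

theorem deriv_eval (F Ft : A[X][X]) (hFt : ∀ i, Ft.coeff i = derivative (F.coeff i)) (x₀ : A) :
    derivative (F.eval (Polynomial.C x₀)) = Ft.eval (Polynomial.C x₀) := by
  rw [eval_eq_sum_range' (n := max F.natDegree Ft.natDegree + 1) (by omega),
    eval_eq_sum_range' (n := max F.natDegree Ft.natDegree + 1) (by omega), derivative_sum]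
  refine Finset.sum_congr rfl fun i _ => ?_
  rw [hFt, derivative_mul, ← C_pow, derivative_C, mul_zero, add_zero]

theorem eval_comm (F : A[X][X]) (t₀ x₀ : A) :
    (F.eval (Polynomial.C x₀)).eval t₀ = (F.map (evalRingHom t₀)).eval x₀ := by
  rw [eval_map]
  have h := (eval₂_hom (p := F) (f := evalRingHom t₀) (Polynomial.C x₀)).symm
  rw [coe_evalRingHom, eval_C] at h
  exact h

/-- the syzygies at the node -/
theorem node_syz [IsDomain A] [CharZero A] (g : ℕ) (x₀ : A) (f₁ p s : A[X]) (hm : f₁.Monic)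
    (hdeg : f₁.natDegree + 1 = 2 * g)
    (h2 : (f₁.map (algebraMap A (FractionRing A))).Separable) (h3 : f₁.eval x₀ ≠ 0)
    (hs : s.natDegree ≤ 2 * g)
    (h : p * ((X - C x₀) ^ 2 * f₁) + s * derivative ((X - C x₀) ^ 2 * f₁) = 0) :
    ∃ c : A, s = C c * ((X - C x₀) * f₁) ∧
      p = -(C c) * (2 * f₁ + (X - C x₀) * derivative f₁) := by
  have hd : derivative ((X - C x₀) ^ 2 * f₁) =
      (X - C x₀) * (2 * f₁ + (X - C x₀) * derivative f₁) := by
    rw [derivative_mul, derivative_X_sub_C_pow]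
    simp only [Nat.cast_ofNat, map_ofNat]
    ring
  have hX : (X - C x₀ : A[X]) ≠ 0 := X_sub_C_ne_zero x₀
  have h' : p * ((X - C x₀) * f₁) + s * (2 * f₁ + (X - C x₀) * derivative f₁) = 0 := by
    apply mul_left_cancel₀ hX
    rw [mul_zero, ← h, hd]
    ring
  have hmm : ((X - C x₀) * f₁).Monic := (monic_X_sub_C x₀).mul hm
  have hmd : ((X - C x₀) * f₁).natDegree = 2 * g := by
    rw [(monic_X_sub_C x₀).natDegree_mul hm, natDegree_X_sub_C]
    omega
  set K := FractionRing A
  set φ := algebraMap A K with hφ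
  have hinj : Function.Injective φ := IsFractionRing.injective A K
  have : CharZero K := charZero_of_injective_algebraMap hinj
  have hX1 : (X - C x₀ : A[X]).map φ = X - C (φ x₀) := by
    rw [Polynomial.map_sub, map_X, map_C]
  have hcop : ∀ q : K[X], q.eval (φ x₀) ≠ 0 → IsCoprime (X - C (φ x₀)) q := by
    intro q hq
    rw [(irreducible_X_sub_C (φ x₀)).coprime_iff_not_dvd, dvd_iff_isRoot]
    exact hq
  have he : ∀ q : A[X], (q.map φ).eval (φ x₀) = φ (q.eval x₀) := fun q => eval_map_apply φ x₀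
  have hne : ∀ a : A, a ≠ 0 → φ a ≠ 0 := fun a ha h0 => ha (hinj (h0.trans (map_zero φ).symm))
  have c1 : IsCoprime (X - C (φ x₀)) (f₁.map φ) := hcop _ (by rw [he]; exact hne _ h3)
  have c2 : IsCoprime (X - C (φ x₀))
      ((2 * f₁ + (X - C x₀) * derivative f₁).map φ) := hcop _ (by
    rw [he]
    apply hne
    rw [eval_add, eval_mul, eval_mul, eval_sub, eval_X, eval_C, sub_self, zero_mul, add_zero]
    have : eval x₀ (2 : A[X]) = 2 := by simp
    rw [this]
    exact mul_ne_zero two_ne_zero h3)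
  have c3 : IsCoprime (f₁.map φ) ((2 * f₁ + (X - C x₀) * derivative f₁).map φ) := by
    have h4 : IsCoprime (f₁.map φ) ((X - C (φ x₀)) * derivative (f₁.map φ)) :=
      c1.symm.mul_right h2
    have e : (2 * f₁ + (X - C x₀) * derivative f₁).map φ =
        (X - C (φ x₀)) * derivative (f₁.map φ) + f₁.map φ * 2 := by
      rw [Polynomial.map_add, Polynomial.map_mul, Polynomial.map_mul, hX1, derivative_map,
        Polynomial.map_ofNat]
      ring
    rw [e]
    exact h4.add_mul_left_right 2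
  have c4 : IsCoprime (((X - C x₀) * f₁).map φ)
      ((2 * f₁ + (X - C x₀) * derivative f₁).map φ) := by
    rw [Polynomial.map_mul, hX1]
    exact c2.mul_left c3
  have hdvd : ((X - C x₀) * f₁).map φ ∣ s.map φ := by
    refine c4.dvd_of_dvd_mul_right ?_
    rw [← Polynomial.map_mul]
    refine (Polynomial.map_dvd φ ?_)
    refine ⟨-p, ?_⟩
    linear_combination h'
  have hdvd' : ((X - C x₀) * f₁) ∣ s := (map_dvd_map φ hinj hmm).1 hdvd
  obtain ⟨q, hq⟩ := hdvd'
  have hq0 : q.natDegree = 0 := by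
    by_cases hq1 : q = 0
    · rw [hq1, natDegree_zero]
    · have := hmm.natDegree_mul' hq1
      rw [← hq, hmd] at this
      omega
  obtain ⟨c, hc⟩ := natDegree_eq_zero.1 hq0
  refine ⟨c, ?_, ?_⟩
  · rw [hq, ← hc]
    ring
  · apply mul_right_cancel₀ hmm.ne_zero
    rw [hq, ← hc] at h'
    linear_combination h'

variable [IsDomain A] [CharZero A]

/-- one step -/
theorem step (g : ℕ) (F Ft : A[X][X])
    (hFt : ∀ i, Ft.coeff i = derivative (F.coeff i)) (t₀ x₀ : A) (f₁ : A[X]) (hm : f₁.Monic)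
    (hdeg : f₁.natDegree + 1 = 2 * g)
    (h1 : F.map (evalRingHom t₀) = (X - C x₀) ^ 2 * f₁)
    (h2 : (f₁.map (algebraMap A (FractionRing A))).Separable) (h3 : f₁.eval x₀ ≠ 0)
    (h4 : (Ft.map (evalRingHom t₀)).eval x₀ ≠ 0) (l : ℕ) (e : A[X]) (P S : A[X][X])
    (hS : S.natDegree ≤ 2 * g)
    (h : P * F + S * derivative F = C ((X - C t₀) ^ 2 * e) * X ^ l * Ft) :
    ∃ P' S' : A[X][X], S'.natDegree ≤ 2 * g ∧
      P' * F + S' * derivative F = C ((X - C t₀) * e) * X ^ l * Ft := by
  have ht : (X - C t₀ : A[X]).eval t₀ = 0 := by simp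
  -- at `t₀`
  have k1 := congrArg (fun q => Polynomial.map (evalRingHom t₀) q) h
  simp only [Polynomial.map_add, Polynomial.map_mul, map_C, coe_evalRingHom, eval_mul, eval_pow,
    ht, ← derivative_map] at k1
  rw [zero_pow two_ne_zero, zero_mul, C_0, zero_mul, zero_mul, h1] at k1
  obtain ⟨c, hc1, hc2⟩ := node_syz g x₀ f₁ _ _ hm hdeg h2 h3 (natDegree_map_le.trans hS) k1
  -- at `x₀`
  have k2 := congrArg (fun q => Polynomial.eval (Polynomial.C x₀) q) h
  simp only [eval_add, eval_mul, eval_C] at k2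
  have k3 := congrArg (fun q => Polynomial.eval t₀ (derivative q)) k2
  simp only [derivative_add, derivative_mul, eval_add, eval_mul, derivative_X_sub_C_pow,
    eval_comm, deriv_eval F Ft hFt, ht, eval_pow, h1, hc1, hc2, eval_sub, eval_X, eval_C,
    sub_self] at k3
  have k4 : eval x₀ (map (evalRingHom t₀) (derivative F)) = 0 := by
    rw [← derivative_map, h1, derivative_mul, derivative_X_sub_C_pow]
    simp
  have k5 : c = 0 := by
    rw [k4] at k3
    have k6 : eval x₀ (2 : A[X]) = 2 := by simp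
    rw [k6, eval_neg, eval_C] at k3
    have k7 : c * (2 * eval x₀ f₁ * eval x₀ (map (evalRingHom t₀) Ft)) = 0 := by
      simp only [ne_eq, OfNat.ofNat_ne_zero, not_false_eq_true, zero_pow, zero_mul, mul_zero,
        add_zero, zero_add, Nat.add_one_sub_one, pow_one] at k3
      linear_combination -k3
    rcases mul_eq_zero.1 k7 with k8 | k8
    · exact k8
    · exact absurd k8 (mul_ne_zero (mul_ne_zero two_ne_zero h3) h4)
  rw [k5, C_0] at hc1 hc2
  rw [zero_mul] at hc1
  rw [neg_zero, zero_mul] at hc2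
  have hdiv : ∀ Q : A[X][X], Q.map (evalRingHom t₀) = 0 → C (X - C t₀) ∣ Q := by
    intro Q hQ
    rw [C_dvd_iff_dvd_coeff]
    intro i
    rw [dvd_iff_isRoot]
    have := congrArg (fun q => Polynomial.coeff q i) hQ
    rw [coeff_map, coeff_zero] at this
    exact this
  obtain ⟨P', hP'⟩ := hdiv P hc2
  obtain ⟨S', hS'⟩ := hdiv S hc1
  have hX : (X - C t₀ : A[X]) ≠ 0 := X_sub_C_ne_zero t₀
  refine ⟨P', S', ?_, ?_⟩
  · rw [hS', natDegree_C_mul hX] at hS
    exact hS
  · have hCX : (C (X - C t₀) : A[X][X]) ≠ 0 := fun h0 => hX (C_eq_zero.1 h0)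
    apply mul_left_cancel₀ hCX
    rw [hP', hS'] at h
    have e1 : (C ((X - C t₀) ^ 2 * e) : A[X][X]) = C (X - C t₀) * C ((X - C t₀) * e) := by
      rw [← C_mul]
      congr 1
      ring
    rw [e1] at h
    linear_combination h

/-- the degree of the cofactor -/
theorem deg_P {R : Type} [CommRing R] [IsDomain R] (g : ℕ) (hg : 1 ≤ g) (F Ft P S : R[X])
    (hm : F.Monic) (hdeg : F.natDegree = 2 * g + 1) (hFt : Ft.natDegree ≤ 2 * g) (l : ℕ)
    (hl : l < 2 * g) (hS : S.natDegree ≤ 2 * g) (c : R)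
    (h : P * F + S * derivative F = C c * X ^ l * Ft) : P.natDegree < 2 * g := by
  by_cases hP : P = 0
  · rw [hP, natDegree_zero]
    omega
  · have h1 : (P * F).natDegree = P.natDegree + F.natDegree := natDegree_mul hP hm.ne_zero
    have h2 : P * F = C c * X ^ l * Ft - S * derivative F := eq_sub_of_add_eq h
    have h3 : (C c * X ^ l * Ft).natDegree ≤ 4 * g := by
      refine natDegree_mul_le.trans ?_
      have h4 : (C c * X ^ l : R[X]).natDegree ≤ l := natDegree_C_mul_X_pow_le c l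
      omega
    have h5 : (S * derivative F).natDegree ≤ 4 * g := by
      refine natDegree_mul_le.trans ?_
      have h6 := natDegree_derivative_le F
      omega
    have h7 : (P * F).natDegree ≤ 4 * g := by
      rw [h2]
      exact (natDegree_sub_le _ _).trans (max_le h3 h5)
    omega

theorem core (g : ℕ) (hg : 1 ≤ g) (F Ft : A[X][X]) (hF : F.Monic) (hFd : F.natDegree = 2 * g + 1)
    (hFt : ∀ i, Ft.coeff i = derivative (F.coeff i)) (u v : A[X][X]) (r : A[X]) (hr : r ≠ 0)
    (huv : u * F + v * derivative F = C r) (t₀ x₀ : A) (f₁ : A[X])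
    (h1 : F.map (evalRingHom t₀) = (X - C x₀) ^ 2 * f₁)
    (h2 : (f₁.map (algebraMap A (FractionRing A))).Separable) (h3 : f₁.eval x₀ ≠ 0)
    (h4 : (Ft.map (evalRingHom t₀)).eval x₀ ≠ 0) :
    ∃ (w : A[X]) (P S : Fin (2 * g) → A[X][X]), w.eval t₀ ≠ 0 ∧
      ∀ l : Fin (2 * g), (P l).natDegree < 2 * g ∧ (S l).natDegree ≤ 2 * g ∧
        2 * (P l * F + S l * derivative F) = C ((X - C t₀) * (2 * w)) * X ^ (l : ℕ) * Ft := by
  classical
  have hmF : ((X - C x₀) ^ 2 * f₁).Monic := by
    rw [← h1]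
    exact hF.map _
  have hm : f₁.Monic := ((monic_X_sub_C x₀).pow 2).of_mul_monic_left hmF
  have hdeg : f₁.natDegree + 1 = 2 * g := by
    have k1 : ((X - C x₀) ^ 2 * f₁).natDegree = 2 * g + 1 := by
      rw [← h1, hF.natDegree_map, hFd]
    rw [((monic_X_sub_C x₀).pow 2).natDegree_mul hm, natDegree_pow, natDegree_X_sub_C] at k1
    omega
  have hFtd : Ft.natDegree ≤ 2 * g := by
    rw [natDegree_le_iff_coeff_eq_zero]
    intro i hi
    rw [hFt]
    rcases eq_or_ne i (2 * g + 1) with h | h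
    · rw [h, ← hFd, hF.coeff_natDegree, derivative_one]
    · rw [coeff_eq_zero_of_natDegree_lt (by omega), derivative_zero]
  -- the ideal
  set I : Set A[X] := {d | ∀ l : Fin (2 * g), ∃ P S : A[X][X], S.natDegree ≤ 2 * g ∧
    P * F + S * derivative F = C d * X ^ (l : ℕ) * Ft} with hI
  have hstep : ∀ e : A[X], (X - C t₀) ^ 2 * e ∈ I → (X - C t₀) * e ∈ I := by
    intro e he l
    obtain ⟨P, S, hS, h⟩ := he l
    exact step g F Ft hFt t₀ x₀ f₁ hm hdeg h1 h2 h3 h4 l e P S hS h
  have hrI : r ∈ I := by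
    intro l
    refine ⟨u * X ^ (l : ℕ) * Ft + (v * X ^ (l : ℕ) * Ft) /ₘ F * derivative F,
      (v * X ^ (l : ℕ) * Ft) %ₘ F, ?_, ?_⟩
    · have := natDegree_modByMonic_lt (v * X ^ (l : ℕ) * Ft) hF (by
        intro h0
        rw [h0, natDegree_one] at hFd
        omega)
      omega
    · have h5 := modByMonic_add_div (v * X ^ (l : ℕ) * Ft) F
      have h6 : C r * X ^ (l : ℕ) * Ft = (u * F + v * derivative F) * X ^ (l : ℕ) * Ft := by
        rw [huv]
      rw [h6]
      linear_combination (derivative F) * h5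
  have hex : ∃ d : A[X], d ∈ I ∧ ¬ (X - C t₀) ^ 2 ∣ d := by
    have : ∀ n : ℕ, ∀ d : A[X], d ≠ 0 → d.natDegree ≤ n → d ∈ I →
        ∃ d : A[X], d ∈ I ∧ ¬ (X - C t₀) ^ 2 ∣ d := by
      intro n
      induction n with
      | zero =>
        intro d hd0 hdn hd
        refine ⟨d, hd, fun ⟨e, he⟩ => ?_⟩
        have he0 : e ≠ 0 := by
          rintro rfl
          exact hd0 (by rw [he, mul_zero])
        have := ((monic_X_sub_C t₀).pow 2).natDegree_mul' he0
        rw [← he, natDegree_pow, natDegree_X_sub_C] at this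
        omega
      | succ n ih =>
        intro d hd0 hdn hd
        by_cases hdv : (X - C t₀) ^ 2 ∣ d
        · obtain ⟨e, he⟩ := hdv
          have he0 : e ≠ 0 := by
            rintro rfl
            exact hd0 (by rw [he, mul_zero])
          have k1 := ((monic_X_sub_C t₀).pow 2).natDegree_mul' he0
          rw [← he, natDegree_pow, natDegree_X_sub_C] at k1
          have k2 := (monic_X_sub_C t₀).natDegree_mul' he0
          rw [natDegree_X_sub_C] at k2
          exact ih ((X - C t₀) * e) (mul_ne_zero (X_sub_C_ne_zero t₀) he0) (by omega)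
            (hstep e (he ▸ hd))
        · exact ⟨d, hd, hdv⟩
    exact this r.natDegree r hr le_rfl hrI
  obtain ⟨d, hd, hnd⟩ := hex
  have hfin : ∀ w : A[X], w.eval t₀ ≠ 0 → (X - C t₀) * w ∈ I →
      ∃ (w : A[X]) (P S : Fin (2 * g) → A[X][X]), w.eval t₀ ≠ 0 ∧
      ∀ l : Fin (2 * g), (P l).natDegree < 2 * g ∧ (S l).natDegree ≤ 2 * g ∧
        2 * (P l * F + S l * derivative F) = C ((X - C t₀) * (2 * w)) * X ^ (l : ℕ) * Ft := by
    intro w hw hwI
    choose P S hS h using hwI
    refine ⟨w, P, S, hw, fun l => ⟨deg_P g hg F Ft (P l) (S l) hF hFd hFtd l l.2 (hS l) _ (h l),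
      hS l, ?_⟩⟩
    rw [h l]
    have e : (C ((X - C t₀) * (2 * w)) : A[X][X]) = 2 * C ((X - C t₀) * w) := by
      have e1 : (X - C t₀) * (2 * w) = 2 * ((X - C t₀) * w) := by ring
      have e2 : (C (2 : A[X]) : A[X][X]) = 2 := map_ofNat C 2
      rw [e1, C_mul, e2]
    rw [e]
    ring
  by_cases hdr : d.eval t₀ = 0
  · obtain ⟨w, hw⟩ := dvd_iff_isRoot.2 hdr
    refine hfin w (fun h0 => hnd ?_) (hw ▸ hd)
    obtain ⟨w', hw'⟩ := dvd_iff_isRoot.2 h0
    exact ⟨w', by rw [hw, hw']; ring⟩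
  · refine hfin d hdr fun l => ?_
    obtain ⟨P, S, hS, h⟩ := hd l
    refine ⟨C (X - C t₀) * P, C (X - C t₀) * S, ?_, ?_⟩
    · exact (natDegree_C_mul_le _ _).trans hS
    · rw [C_mul]
      linear_combination C (X - C t₀) * h

end Pool.Agent.Helper31.BW
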