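import Pool.Agent.Helper62.BW.Stm
import Pool.Agent.Helper31.BW.LocCore

/-! # W_Loc -/

set_option autoImplicit false

open Polynomial

namespace Pool.Agent.Helper31.BW

open Pool.Agent.Helper62.BW

/-- Clearing denominators in the Bezout relation (as in helper62's `Frame`). -/
theorem sep_clear' {R : Type} [CommRing R] [IsDomain R] (F : R[X])
    (h : (F.map (algebraMap R (FractionRing R))).Separable) :
    ∃ (u v : R[X]) (r : R), r ≠ 0 ∧ u * F + v * derivative F = Polynomial.C r := by
  obtain ⟨u, v, huv⟩ := h
  obtain ⟨b, hb⟩ := IsLocalization.integerNormalization_map_to_map (nonZeroDivisors R) u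
  obtain ⟨c, hc⟩ := IsLocalization.integerNormalization_map_to_map (nonZeroDivisors R) v
  set u' := IsLocalization.integerNormalization (nonZeroDivisors R) u with hu'
  set v' := IsLocalization.integerNormalization (nonZeroDivisors R) v with hv'
  have hinj : Function.Injective (algebraMap R (FractionRing R)) :=
    IsFractionRing.injective R (FractionRing R)
  refine ⟨Polynomial.C (c : R) * u', Polynomial.C (b : R) * v', (b : R) * c,
    mul_ne_zero (nonZeroDivisors.coe_ne_zero b) (nonZeroDivisors.coe_ne_zero c), ?_⟩
  apply Polynomial.map_injective _ hinj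
  have hb' : u'.map (algebraMap R (FractionRing R)) =
      Polynomial.C (algebraMap R (FractionRing R) b) * u := by
    rw [hb, Algebra.smul_def]
    rfl
  have hc' : v'.map (algebraMap R (FractionRing R)) =
      Polynomial.C (algebraMap R (FractionRing R) c) * v := by
    rw [hc, Algebra.smul_def]
    rfl
  rw [Polynomial.map_add, Polynomial.map_mul, Polynomial.map_mul, Polynomial.map_mul,
    Polynomial.map_mul, Polynomial.map_C, Polynomial.map_C, Polynomial.map_C, hb', hc', map_mul,
    map_mul, ← derivative_map]
  calc _ = Polynomial.C (algebraMap R (FractionRing R) b) *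
        Polynomial.C (algebraMap R (FractionRing R) c) *
        (u * F.map (algebraMap R (FractionRing R)) +
          v * derivative (F.map (algebraMap R (FractionRing R)))) := by ring
    _ = _ := by rw [huv, mul_one]

/-- **W10.** The local structure at the node. -/
theorem w_loc : W_Loc := by
  intro A _ _ _ g hg F hF t₀ x₀ f₁ hN
  obtain ⟨hmon, hdeg, hsep⟩ := hF
  obtain ⟨h1, h2, h3, h4⟩ := hN
  obtain ⟨u, v, r, hr, huv⟩ := sep_clear' F hsep
  exact core g hg F (dt F) hmon hdeg (coeff_dt F) u v r hr huv t₀ x₀ f₁ h1 h2 h3 h4

end Pool.Agent.Helper31.BW
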